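import Pool.Agent.L0h98.T8.Par8
import Pool.Agent.W376.RTL.Pts

/-!
# Many curves with a point of order eight: the points
-/

set_option autoImplicit false

namespace Pool.Agent.L0h98.T8

open Pool.Agent.W307.RT Pool.Agent.W262.RK WeierstrassCurve.Affine Pool.Agent.W135.RT
  Pool.Agent.L0h5.T8

/-- the coefficient `A` -/
def A8 (a b : ℤ) : ℤ := 27 * (3 * Tf a b ^ 2 - Pf a b ^ 2)

/-- the coefficient `B` -/
def B8 (a b : ℤ) : ℤ := 27 * (Pf a b * (2 * Pf a b ^ 2 - 9 * Tf a b ^ 2))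

theorem disc8 (a b : ℤ) : 4 * A8 a b ^ 3 + 27 * B8 a b ^ 2 =
    27 ^ 4 * 16 * (Tf a b ^ 4 * (a ^ 4 * (b ^ 2 * (b ^ 2 - 2 * a ^ 2)))) := by
  unfold A8 B8 Pf
  have : Tf a b = (b ^ 2 - a ^ 2) ^ 2 := rfl
  rw [this]
  ring

theorem pos8 {a b : ℤ} (ha : 0 < a) (hab : 2 * a < b) :
    0 < b ^ 2 - 2 * a ^ 2 ∧ 0 < b ^ 2 - a ^ 2 ∧ 0 < b := by
  have hb : 0 < b := by linarith
  have h1 : (2 * a) ^ 2 < b ^ 2 := pow_lt_pow_left₀ hab (by linarith) (by norm_num)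
  have h2 : 0 < a ^ 2 := by positivity
  refine ⟨by nlinarith, by nlinarith, hb⟩

theorem disc8_ne {a b : ℤ} (ha : 0 < a) (hab : 2 * a < b) :
    4 * A8 a b ^ 3 + 27 * B8 a b ^ 2 ≠ 0 := by
  rw [disc8]
  obtain ⟨h1, h2, h3⟩ := pos8 ha hab
  have h4 : 0 < Tf a b := by unfold Tf; positivity
  positivity

/-- the double of a point, given -/
theorem dbl' {A B : ℤ} {x y x' y' m : ℚ} (h : (Sh A B).toAffine.Nonsingular x y) (hy : y ≠ 0)
    (h' : (Sh A B).toAffine.Nonsingular x' y') (hm : 2 * m * y = 3 * x ^ 2 + A)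
    (hx : x' = m ^ 2 - 2 * x) (hy' : y' = -(m * (x' - x) + y)) :
    Point.some x y h + Point.some x y h = Point.some x' y' h' := by
  obtain ⟨m₀, x₀, y₀, h₀, e1, e2, e3, e4⟩ := dbl h hy
  have hm0 : m₀ = m := by
    have : 2 * (m₀ - m) * y = 0 := by linarith
    have h2 := (mul_eq_zero.mp this).resolve_right hy
    linarith
  rw [hm0, ← hx] at e3
  rw [hm0, e3, ← hy'] at e4
  subst e3 e4
  exact e1

theorem hasP8 {a b : ℤ} (ha : 0 < a) (hab : 2 * a < b) : HasP 8 (Sh (A8 a b) (B8 a b)) := by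
  have hd := disc8_ne ha hab
  obtain ⟨p1, p2, p3⟩ := pos8 ha hab
  have haq : (0 : ℚ) < a := by exact_mod_cast ha
  have hbq : (0 : ℚ) < b := by exact_mod_cast p3
  have habq : (0 : ℚ) < (b : ℚ) - a := by
    have : 0 < b - a := by linarith
    exact_mod_cast this
  have hb2 : (0 : ℚ) < (b : ℚ) ^ 2 - a ^ 2 := by exact_mod_cast p2
  have hP : (Pf a b : ℚ) = 4 * (a : ℚ) ^ 4 - 2 * ((b : ℚ) ^ 2 - a ^ 2) ^ 2 := by
    unfold Pf; push_cast; ring
  have hT : (Tf a b : ℚ) = ((b : ℚ) ^ 2 - a ^ 2) ^ 2 := by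
    unfold Tf; push_cast; ring
  have hA : ((A8 a b : ℤ) : ℚ) = 27 * (3 * (Tf a b : ℚ) ^ 2 - (Pf a b : ℚ) ^ 2) := by
    unfold A8; push_cast; ring
  have hB : ((B8 a b : ℤ) : ℚ) = 27 * ((Pf a b : ℚ) * (2 * (Pf a b : ℚ) ^ 2 -
      9 * (Tf a b : ℚ) ^ 2)) := by
    unfold B8; push_cast; ring
  have e1 : (54 * (a : ℚ) * b * (b - a) * (a + b) ^ 3) ^ 2 =
      (3 * (Pf a b : ℚ) + 9 * (b - a) * (a + b) ^ 3) ^ 3 + (A8 a b : ℤ) *
        (3 * (Pf a b : ℚ) + 9 * (b - a) * (a + b) ^ 3) + (B8 a b : ℤ) := by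
    rw [hA, hB, hP, hT]; ring
  have e2 : (54 * (a : ℚ) ^ 2 * Tf a b) ^ 2 =
      (3 * (Pf a b : ℚ) + 9 * Tf a b) ^ 3 + (A8 a b : ℤ) * (3 * (Pf a b : ℚ) + 9 * Tf a b) +
        (B8 a b : ℤ) := by
    rw [hA, hB, hP, hT]; ring
  have e3 : (0 : ℚ) ^ 2 = (3 * (Pf a b : ℚ)) ^ 3 + (A8 a b : ℤ) * (3 * (Pf a b : ℚ)) +
      (B8 a b : ℤ) := by
    rw [hA, hB]; ring
  have n1 := Pool.Agent.W376.RTL.nonsing hd e1
  have n2 := Pool.Agent.W376.RTL.nonsing hd e2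
  have n3 := Pool.Agent.W376.RTL.nonsing hd e3
  have hT0 : (0 : ℚ) < Tf a b := by rw [hT]; positivity
  have d1 := dbl' (m := 3 * ((b : ℚ) ^ 2 - a ^ 2) + 6 * a * b) n1 (by positivity) n2
    (by rw [hA, hP, hT]; ring) (by rw [hP, hT]; ring) (by rw [hP, hT]; ring)
  have d2 := dbl' (m := 6 * (a : ℚ) ^ 2) n2 (by positivity) n3
    (by rw [hA, hP, hT]; ring) (by rw [hP, hT]; ring) (by rw [hP, hT]; ring)
  have o3 := Pool.Agent.W376.RTL.two_tors n3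
  have : Fact (Nat.Prime 2) := ⟨Nat.prime_two⟩
  refine ⟨Point.some _ _ n1, ?_⟩
  have f4 : 2 ^ 2 • Point.some _ _ n1 = Point.some _ _ n3 := by
    rw [show (2 ^ 2 : ℕ) = 2 * 2 by norm_num, mul_nsmul, two_nsmul, two_nsmul, d1, d2]
  have f8 : 2 ^ (2 + 1) • Point.some _ _ n1 = 0 := by
    rw [pow_succ, mul_nsmul, f4, ← o3]
    exact addOrderOf_nsmul_eq_zero _
  have := addOrderOf_eq_prime_pow (p := 2) (n := 2) (x := Point.some _ _ n1) (by
    rw [f4]; exact Point.some_ne_zero n3) f8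
  rw [this]
  norm_num

theorem inj_ab {a b a' b' : ℤ} (ha : 0 < a) (hab : 2 * a < b) (ha' : 0 < a') (hab' : 2 * a' < b')
    (hA : A8 a b = A8 a' b') (hB : B8 a b = B8 a' b') : a = a' ∧ b = b' := by
  obtain ⟨p1, p2, p3⟩ := pos8 ha hab
  obtain ⟨p1', p2', p3'⟩ := pos8 ha' hab'
  have hP : Pf a b = Pf a' b' := by
    by_contra hne
    set e := Pf a b with he
    set e' := Pf a' b' with he'
    have r1 : 27 * e ^ 3 + 3 * A8 a b * e + B8 a b = 0 := by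
      unfold A8 B8; rw [← he]; ring
    have r2 : 27 * e' ^ 3 + 3 * A8 a b * e' + B8 a b = 0 := by
      rw [hA, hB]
      unfold A8 B8; rw [← he']; ring
    have r3 : (e - e') * (27 * (e ^ 2 + e * e' + e' ^ 2) + 3 * A8 a b) = 0 := by
      linear_combination r1 - r2
    have r4 := (mul_eq_zero.mp r3).resolve_left (sub_ne_zero.mpr hne)
    have r5 : A8 a b = 27 * (3 * Tf a b ^ 2 - e ^ 2) := by unfold A8; rw [← he]
    have r6 : (2 * Tf a b - e) * (2 * Tf a b + e) = 16 * (a ^ 4 * (b ^ 2 * (b ^ 2 - 2 * a ^ 2))) := by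
      rw [he]; unfold Tf Pf; ring
    have r7 : 0 < 16 * (a ^ 4 * (b ^ 2 * (b ^ 2 - 2 * a ^ 2))) := by positivity
    rw [← r6] at r7
    rw [r5] at r4
    nlinarith [sq_nonneg (2 * e' + e)]
  have hT : Tf a b = Tf a' b' := by
    have h1 : Tf a b ^ 2 = Tf a' b' ^ 2 := by
      unfold A8 at hA
      rw [hP] at hA
      linarith
    have h2 : 0 ≤ Tf a b := by unfold Tf; positivity
    have h3 : 0 ≤ Tf a' b' := by unfold Tf; positivity
    exact (pow_left_inj₀ h2 h3 (by norm_num)).mp h1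
  have haa : a = a' := by
    have h1 : a ^ 4 = a' ^ 4 := by
      have e1 : 4 * a ^ 4 = Pf a b + 2 * Tf a b := by unfold Pf Tf; ring
      have e2 : 4 * a' ^ 4 = Pf a' b' + 2 * Tf a' b' := by unfold Pf Tf; ring
      rw [hP, hT, ← e2] at e1
      linarith
    exact (pow_left_inj₀ ha.le ha'.le (by norm_num)).mp h1
  refine ⟨haa, ?_⟩
  have h1 : b ^ 2 - a ^ 2 = b' ^ 2 - a' ^ 2 := by
    unfold Tf at hT
    exact (pow_left_inj₀ p2.le p2'.le (by norm_num)).mp hT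
  have h2 : b ^ 2 = b' ^ 2 := by rw [haa] at h1; linarith
  exact (pow_left_inj₀ p3.le p3'.le (by norm_num)).mp h2

theorem height8 {a b X : ℤ} (ha : 0 < a) (hab : 2 * a < b) (hb : b ≤ X) :
    4 * |A8 a b| ^ 3 ≤ 5000000000 * X ^ 24 ∧ 27 * B8 a b ^ 2 ≤ 5000000000 * X ^ 24 := by
  obtain ⟨p1, p2, p3⟩ := pos8 ha hab
  have hX : 0 < X := by linarith
  have hb4 : b ^ 4 ≤ X ^ 4 := pow_le_pow_left₀ p3.le hb 4
  have hT1 : 0 ≤ Tf a b := by unfold Tf; positivity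
  have hT2 : Tf a b ≤ X ^ 4 := by
    have h1 : (b ^ 2 - a ^ 2) ^ 2 ≤ (b ^ 2) ^ 2 :=
      pow_le_pow_left₀ p2.le (by nlinarith [sq_nonneg a]) 2
    unfold Tf
    calc (b ^ 2 - a ^ 2) ^ 2 ≤ (b ^ 2) ^ 2 := h1
      _ = b ^ 4 := by ring
      _ ≤ _ := hb4
  have ha4 : a ^ 4 ≤ X ^ 4 := pow_le_pow_left₀ ha.le (by linarith) 4
  have ha40 : 0 ≤ a ^ 4 := by positivity
  have hP : |Pf a b| ≤ 6 * X ^ 4 := by
    have e : Pf a b = 4 * a ^ 4 - 2 * Tf a b := by unfold Pf Tf; ring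
    rw [e, abs_le]
    constructor <;> linarith
  have hP2 : Pf a b ^ 2 ≤ 36 * X ^ 8 := by
    rw [← sq_abs]
    calc |Pf a b| ^ 2 ≤ (6 * X ^ 4) ^ 2 := pow_le_pow_left₀ (abs_nonneg _) hP 2
      _ = _ := by ring
  have hTT : Tf a b ^ 2 ≤ X ^ 8 := by
    calc Tf a b ^ 2 ≤ (X ^ 4) ^ 2 := pow_le_pow_left₀ hT1 hT2 2
      _ = _ := by ring
  have hP20 := sq_nonneg (Pf a b)
  have hT20 := sq_nonneg (Tf a b)
  have hX8 : 0 < X ^ 8 := by positivity
  have hX4 : 0 < X ^ 4 := by positivity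
  have hA : |A8 a b| ≤ 1053 * X ^ 8 := by
    unfold A8
    rw [abs_le]
    constructor <;> linarith
  have hB : |B8 a b| ≤ 13122 * X ^ 12 := by
    unfold B8
    rw [abs_mul, abs_mul]
    have h1 : |2 * Pf a b ^ 2 - 9 * Tf a b ^ 2| ≤ 81 * X ^ 8 := by
      rw [abs_le]
      constructor <;> linarith
    have h2 : |(27 : ℤ)| = 27 := by norm_num
    rw [h2]
    calc 27 * (|Pf a b| * |2 * Pf a b ^ 2 - 9 * Tf a b ^ 2|) ≤ 27 * ((6 * X ^ 4) * (81 * X ^ 8)) := by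
          apply mul_le_mul_of_nonneg_left _ (by norm_num)
          exact mul_le_mul hP h1 (abs_nonneg _) (by positivity)
      _ = _ := by ring
  have hX24 : 0 ≤ X ^ 24 := by positivity
  constructor
  · calc 4 * |A8 a b| ^ 3 ≤ 4 * (1053 * X ^ 8) ^ 3 := by
          apply mul_le_mul_of_nonneg_left _ (by norm_num)
          exact pow_le_pow_left₀ (abs_nonneg _) hA 3
      _ = 4670303508 * X ^ 24 := by ring
      _ ≤ _ := by linarith
  · rw [← sq_abs]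
    calc 27 * |B8 a b| ^ 2 ≤ 27 * (13122 * X ^ 12) ^ 2 := by
          apply mul_le_mul_of_nonneg_left _ (by norm_num)
          exact pow_le_pow_left₀ (abs_nonneg _) hB 2
      _ = 4649045868 * X ^ 24 := by ring
      _ ≤ _ := by linarith

theorem min8 {a b : ℤ} (hc : IsCoprime a b) (h6 : 6 ∣ a) (p : ℕ) (hp : p.Prime) :
    ¬ ((p : ℤ) ^ 4 ∣ A8 a b ∧ (p : ℤ) ^ 6 ∣ B8 a b) := by
  rintro ⟨hA, hB⟩
  have hpI : Prime (p : ℤ) := Nat.prime_iff_prime_int.1 hp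
  have hcop : ¬ ((p : ℤ) ∣ a ∧ (p : ℤ) ∣ b) := by
    rintro ⟨h1, h2⟩
    exact hpI.not_isUnit (hc.isUnit_of_dvd' h1 h2)
  -- `p` does not divide both forms
  have hPT : p ≠ 2 → ¬ ((p : ℤ) ∣ Pf a b ∧ (p : ℤ) ∣ Tf a b) := by
    rintro hp2 ⟨h1, h2⟩
    have h3 : (p : ℤ) ∣ b ^ 2 - a ^ 2 := hpI.dvd_of_dvd_pow h2
    have h4 : (p : ℤ) ∣ 4 * a ^ 4 := by
      have := dvd_add h1 (Dvd.dvd.mul_left h2 2)
      have e : Pf a b + 2 * Tf a b = 4 * a ^ 4 := by unfold Pf Tf; ring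
      rwa [e] at this
    have h5 : (p : ℤ) ∣ a := by
      rcases hpI.dvd_or_dvd h4 with h | h
      · exfalso
        have h6 : (p : ℤ) ∣ 2 ^ 2 := by norm_num; exact h
        have h7 := hpI.dvd_of_dvd_pow h6
        have h8 : p ∣ 2 := by exact_mod_cast h7
        rcases (Nat.dvd_prime Nat.prime_two).1 h8 with h9 | h9
        · exact hp.one_lt.ne' h9
        · exact hp2 h9
      · exact hpI.dvd_of_dvd_pow h
    have h6 : (p : ℤ) ∣ b := by
      apply hpI.dvd_of_dvd_pow (n := 2)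
      have := dvd_add h3 (dvd_pow h5 (two_ne_zero))
      have e : b ^ 2 - a ^ 2 + a ^ 2 = b ^ 2 := by ring
      rwa [e] at this
    exact hcop ⟨h5, h6⟩
  obtain ⟨k, hk⟩ := h6
  by_cases hp2 : p = 2
  · subst hp2
    have h1 : (2 : ℤ) ∣ A8 a b := (dvd_pow_self _ (by norm_num)).trans hA
    have hb : ¬ (2 : ℤ) ∣ b := by
      intro h
      exact hcop ⟨by push_cast; exact ⟨3 * k, by rw [hk]; ring⟩, by push_cast; exact h⟩
    apply hb
    have h2 : (2 : ℤ) ∣ 81 * b ^ 8 := by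
      have h3 : (2 : ℤ) ∣ A8 a b - 81 * b ^ 8 := by
        refine ⟨27 * (-(2 * a ^ 4 - (b ^ 2 - a ^ 2) ^ 2) * Pf a b) + 81 * (3 * k * (a * (- 4 * b ^ 6 + 6 * b ^ 4 * a ^ 2 - 4 * b ^ 2 * a ^ 4 + a ^ 6))), ?_⟩
        unfold A8 Tf Pf
        rw [hk]
        ring
      have := dvd_sub h1 h3
      have e : A8 a b - (A8 a b - 81 * b ^ 8) = 81 * b ^ 8 := by ring
      rwa [e] at this
    have h4 : Prime (2 : ℤ) := Int.prime_two
    rcases h4.dvd_or_dvd h2 with h | h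
    · exfalso; omega
    · exact h4.dvd_of_dvd_pow h
  have hPT' := hPT hp2
  by_cases hp3 : p = 3
  · subst hp3
    have h1 : (3 : ℤ) ∣ 3 * Tf a b ^ 2 - Pf a b ^ 2 := by
      have h2 : (27 : ℤ) * 3 ∣ 27 * (3 * Tf a b ^ 2 - Pf a b ^ 2) := by
        have : ((3 : ℕ) : ℤ) ^ 4 = 27 * 3 := by norm_num
        rw [← this]
        exact hA
      exact Int.dvd_of_mul_dvd_mul_left (by norm_num) h2
    have h3 : (3 : ℤ) ∣ Pf a b := by
      apply Int.prime_three.dvd_of_dvd_pow (n := 2)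
      have h2 : (3 : ℤ) ∣ 3 * Tf a b ^ 2 := Dvd.intro _ rfl
      have := dvd_sub h2 h1
      have e : 3 * Tf a b ^ 2 - (3 * Tf a b ^ 2 - Pf a b ^ 2) = Pf a b ^ 2 := by ring
      rwa [e] at this
    -- `P = - 2 b ^ 4` modulo 3
    have h4 : (3 : ℤ) ∣ 2 * b ^ 4 := by
      have h5 : (3 : ℤ) ∣ Pf a b + 2 * b ^ 4 := by
        refine ⟨2 * k * (4 * a ^ 3 - 2 * (a * (a ^ 2 - 2 * b ^ 2))), ?_⟩
        unfold Pf
        rw [hk]
        ring
      have := dvd_sub h5 h3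
      have e : Pf a b + 2 * b ^ 4 - Pf a b = 2 * b ^ 4 := by ring
      rwa [e] at this
    have h5 : (3 : ℤ) ∣ b := by
      rcases Int.prime_three.dvd_or_dvd h4 with h | h
      · exfalso; omega
      · exact Int.prime_three.dvd_of_dvd_pow h
    exact hcop ⟨by push_cast; exact ⟨2 * k, by rw [hk]; ring⟩, by push_cast; exact h5⟩
  · have hp3' : ¬ (p : ℤ) ∣ 3 := by
      intro h
      have h3 : p ∣ 3 := by exact_mod_cast h
      rcases (Nat.dvd_prime Nat.prime_three).1 h3 with h4 | h4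
      · exact hp.one_lt.ne' h4
      · exact hp3 h4
    have hp27 : ¬ (p : ℤ) ∣ 27 := by
      intro h
      have h1 : (p : ℤ) ∣ 3 ^ 3 := by norm_num; exact h
      exact hp3' (hpI.dvd_of_dvd_pow h1)
    have hq : (p : ℤ) ∣ 3 * Tf a b ^ 2 - Pf a b ^ 2 := by
      have h1 : (p : ℤ) ∣ A8 a b := (dvd_pow_self _ (by norm_num)).trans hA
      unfold A8 at h1
      exact (hpI.dvd_or_dvd h1).resolve_left hp27
    have hr : (p : ℤ) ∣ Pf a b * (2 * Pf a b ^ 2 - 9 * Tf a b ^ 2) := by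
      have h1 : (p : ℤ) ∣ B8 a b := (dvd_pow_self _ (by norm_num)).trans hB
      unfold B8 at h1
      exact (hpI.dvd_or_dvd h1).resolve_left hp27
    apply hPT'
    rcases hpI.dvd_or_dvd hr with h | h
    · refine ⟨h, ?_⟩
      have h2 : (p : ℤ) ∣ 3 * Tf a b ^ 2 := by
        have := dvd_add hq (dvd_pow h (two_ne_zero))
        have e : 3 * Tf a b ^ 2 - Pf a b ^ 2 + Pf a b ^ 2 = 3 * Tf a b ^ 2 := by ring
        rwa [e] at this
      exact hpI.dvd_of_dvd_pow ((hpI.dvd_or_dvd h2).resolve_left hp3')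
    · have h2 : (p : ℤ) ∣ 3 * Tf a b ^ 2 := by
        have := dvd_add (Dvd.dvd.mul_left hq 2) h
        have e : 2 * (3 * Tf a b ^ 2 - Pf a b ^ 2) + (2 * Pf a b ^ 2 - 9 * Tf a b ^ 2) =
          -(3 * Tf a b ^ 2) := by ring
        rw [e] at this
        exact (Int.dvd_neg).1 this
      have hT := hpI.dvd_of_dvd_pow ((hpI.dvd_or_dvd h2).resolve_left hp3')
      refine ⟨?_, hT⟩
      apply hpI.dvd_of_dvd_pow (n := 2)
      have := dvd_sub (Dvd.dvd.mul_left (dvd_pow hT (two_ne_zero)) 3) hq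
      have e : 3 * Tf a b ^ 2 - (3 * Tf a b ^ 2 - Pf a b ^ 2) = Pf a b ^ 2 := by ring
      rwa [e] at this

end Pool.Agent.L0h98.T8
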