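import Pool.Agent.L0h98.T8.Pt

/-!
# Parametrisation of the curves with a point of order eight
-/

set_option autoImplicit false

namespace Pool.Agent.L0h98.T8

open Pool.Agent.W307.RT Pool.Agent.W262.RK WeierstrassCurve.Affine Pool.Agent.W135.RT
  Pool.Agent.L0h5.T8

/-- four times the coefficient -/
def Pf (a b : ℤ) : ℤ := 4 * a ^ 4 - 2 * (b ^ 2 - a ^ 2) ^ 2

/-- four times the root of the constant coefficient -/
def Tf (a b : ℤ) : ℤ := (b ^ 2 - a ^ 2) ^ 2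

/-- the data attached to a curve with a point of order eight -/
structure R8 (A B a b c : ℤ) : Prop where
  c0 : c ≠ 0
  cop : IsCoprime a b
  a0 : a ≠ 0
  b0 : b ≠ 0
  ab : b ^ 2 - a ^ 2 ≠ 0
  ea : 48 * A = c ^ 4 * (3 * Tf a b ^ 2 - Pf a b ^ 2)
  eb : 1728 * B = c ^ 6 * (Pf a b * (2 * Pf a b ^ 2 - 9 * Tf a b ^ 2))

theorem int_of_sq {q : ℚ} {n : ℤ} (h : q ^ 2 = n) : ∃ i : ℤ, q = i := by
  have h1 : IsIntegral ℤ q := by
    refine IsIntegral.of_pow (n := 2) (by norm_num) ?_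
    rw [h]
    exact isIntegral_algebraMap (R := ℤ) (A := ℚ)
  obtain ⟨y, hy⟩ := IsIntegrallyClosed.isIntegral_iff.mp h1
  exact ⟨y, by rw [← hy]; simp⟩

theorem exR8 {A B : ℤ} (hD : 4 * A ^ 3 + 27 * B ^ 2 ≠ 0) (hT : HasP 8 (Sh A B)) :
    ∃ a b c : ℤ, R8 A B a b c := by
  obtain ⟨e, s, t, u, m, ht, hs, hroot, h1, h2, h3, h4⟩ := alg8 hT
  obtain ⟨e', rfl⟩ := int_root hroot
  obtain ⟨t', rfl⟩ := int_of_sq (q := t) (n := 3 * e' ^ 2 + A) (by push_cast; exact h1)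
  obtain ⟨s', rfl⟩ := int_of_sq (q := s) (n := 3 * e' + 2 * t') (by push_cast; exact h2)
  obtain ⟨u', rfl⟩ := int_of_sq (q := u) (n := t') h3
  obtain ⟨w, hw⟩ := int_of_sq (q := m - u') (n := s' * (s' + 2 * u')) (by push_cast; exact h4)
  rw [hw] at h4
  have g0 : t' ≠ 0 := by exact_mod_cast ht
  have g0s : s' ≠ 0 := by exact_mod_cast hs
  have g1 : t' ^ 2 = 3 * e' ^ 2 + A := by exact_mod_cast h1
  have g2 : s' ^ 2 = 3 * e' + 2 * t' := by exact_mod_cast h2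
  have g3 : u' ^ 2 = t' := by exact_mod_cast h3
  have g4 : w ^ 2 = s' * (s' + 2 * u') := by exact_mod_cast h4
  have g5 : e' ^ 3 + A * e' + B = 0 := by exact_mod_cast hroot
  clear h1 h2 h3 h4 hroot hs ht hw
  -- nonvanishing
  have hD2 : 4 * A ^ 3 + 27 * B ^ 2 = -(t' ^ 4 * s' ^ 2 * ((s' - 2 * u') * (s' + 2 * u'))) := by
    have hA : A = t' ^ 2 - 3 * e' ^ 2 := by linarith
    have hB : B = -(e' ^ 3 + A * e') := by linarith
    have hs2 : t' ^ 4 * s' ^ 2 * ((s' - 2 * u') * (s' + 2 * u')) =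
        t' ^ 4 * s' ^ 2 * (s' ^ 2 - 4 * t') := by rw [← g3]; ring
    rw [hs2, hB, hA, g2]
    ring
  have g6 : s' + 2 * u' ≠ 0 := by
    intro h
    apply hD
    rw [hD2, h]; ring
  have hw0 : w ≠ 0 := by
    intro h
    rw [h] at g4
    have : s' * (s' + 2 * u') ≠ 0 := mul_ne_zero g0s g6
    apply this
    rw [← g4]; ring
  -- the coprime pair
  set g : ℤ := ((Int.gcd s' w : ℕ) : ℤ) with hg
  have hg0 : g ≠ 0 := by
    rw [hg]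
    exact_mod_cast (Int.gcd_pos_of_ne_zero_left w g0s).ne'
  obtain ⟨a, ha⟩ : g ∣ s' := Int.gcd_dvd_left _ _
  obtain ⟨b, hb⟩ : g ∣ w := Int.gcd_dvd_right _ _
  have hab : IsCoprime a b := by
    rw [Int.isCoprime_iff_gcd_eq_one]
    have h1 : Int.gcd s' w = g.natAbs * Int.gcd a b := by
      conv_lhs => rw [ha, hb]
      rw [Int.gcd_mul_left]
    have h2 : g.natAbs = Int.gcd s' w := by rw [hg]; simp
    rw [← h2] at h1
    have h3 : g.natAbs ≠ 0 := by omega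
    have : g.natAbs * 1 = g.natAbs * Int.gcd a b := by omega
    exact (Nat.eq_of_mul_eq_mul_left (Nat.pos_of_ne_zero h3) this).symm
  have ha0 : a ≠ 0 := by
    rintro rfl; apply g0s; rw [ha]; ring
  have hb0 : b ≠ 0 := by
    rintro rfl; apply hw0; rw [hb]; ring
  -- `(s + 2 u) a ^ 2 = s b ^ 2`
  have k1 : (s' + 2 * u') * a ^ 2 = s' * b ^ 2 := by
    have h1 : s' * (g ^ 2 * ((s' + 2 * u') * a ^ 2)) = s' * (g ^ 2 * (s' * b ^ 2)) := by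
      have e1 : s' ^ 2 = g ^ 2 * a ^ 2 := by rw [ha]; ring
      have e2 : w ^ 2 = g ^ 2 * b ^ 2 := by rw [hb]; ring
      linear_combination (-(s' * (s' + 2 * u'))) * e1 + s' ^ 2 * e2 - s' ^ 2 * g4
    exact mul_left_cancel₀ (pow_ne_zero 2 hg0) (mul_left_cancel₀ g0s h1)
  have hc2 : IsCoprime (a ^ 2) (b ^ 2) := IsCoprime.pow hab
  obtain ⟨c, hc⟩ : a ^ 2 ∣ s' := hc2.dvd_of_dvd_mul_right (Dvd.intro_left _ k1)
  have k2 : s' + 2 * u' = c * b ^ 2 := by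
    apply mul_right_cancel₀ (pow_ne_zero 2 ha0)
    rw [k1, hc]; ring
  have k3 : 2 * u' = c * (b ^ 2 - a ^ 2) := by linarith
  have k4 : 4 * t' = c ^ 2 * Tf a b := by
    unfold Tf
    rw [← g3]
    linear_combination (2 * u' + c * (b ^ 2 - a ^ 2)) * k3
  have k5 : 12 * e' = c ^ 2 * Pf a b := by
    unfold Pf
    unfold Tf at k4
    linear_combination -4 * g2 - 2 * k4 + 4 * (s' + a ^ 2 * c) * hc
  refine ⟨a, b, c, ?_, hab, ha0, hb0, ?_, ?_, ?_⟩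
  · rintro rfl
    apply g0s; rw [hc]; ring
  · intro h
    rw [h] at k3
    apply g0
    rw [← g3]
    have : u' = 0 := by linarith
    rw [this]; ring
  · have h1 : A = t' ^ 2 - 3 * e' ^ 2 := by linarith
    rw [h1]
    linear_combination 3 * (4 * t' + c ^ 2 * Tf a b) * k4 - (12 * e' + c ^ 2 * Pf a b) * k5
  · have h1 : A = t' ^ 2 - 3 * e' ^ 2 := by linarith
    have h2 : B = -(e' ^ 3 + A * e') := by linarith
    have h3 : c ^ 6 * (Pf a b * (2 * Pf a b ^ 2 - 9 * Tf a b ^ 2)) =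
        (c ^ 2 * Pf a b) * (2 * (c ^ 2 * Pf a b) ^ 2 - 9 * (c ^ 2 * Tf a b) ^ 2) := by ring
    rw [h3, ← k4, ← k5, h2, h1]
    ring

theorem sq_ne_two {a b : ℤ} (ha : a ≠ 0) : b ^ 2 - 2 * a ^ 2 ≠ 0 := by
  intro h
  have h1 : ((b : ℚ) / a) ^ 2 = 2 := by
    have : (a : ℚ) ≠ 0 := by exact_mod_cast ha
    have hq : (b : ℚ) ^ 2 - 2 * a ^ 2 = 0 := by exact_mod_cast h
    field_simp
    linarith
  have h2 : IsSquare (2 : ℚ) := ⟨(b : ℚ) / a, by rw [← h1]; ring⟩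
  have h3 : IsSquare (2 : ℕ) := by exact_mod_cast (Rat.isSquare_natCast_iff (n := 2)).mp (by exact_mod_cast h2)
  obtain ⟨r, hr⟩ := h3
  have : r < 2 := by nlinarith
  interval_cases r <;> omega

theorem fin_le (h : ISO) {A B a b c : ℤ} (hR : R8 A B a b c) :
    Module.finrank ℤ (Sh A B).toAffine.Point ≤
      Module.finrank ℤ (EAB (-(M8 a b)) (-(N8 a b))).toAffine.Point := by
  set r : ℚ := (c : ℚ) ^ 2 * (Pf a b : ℚ) / 12 with hr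
  have hs : (c : ℚ) ≠ 0 := by exact_mod_cast hR.c0
  obtain ⟨e⟩ := h 0 (A : ℚ) (B : ℚ) r c hs
  have ea : 48 * (A : ℚ) = c ^ 4 * (3 * (Tf a b : ℚ) ^ 2 - (Pf a b : ℚ) ^ 2) := by
    exact_mod_cast hR.ea
  have eb : 1728 * (B : ℚ) = c ^ 6 * ((Pf a b : ℚ) * (2 * (Pf a b : ℚ) ^ 2 -
      9 * (Tf a b : ℚ) ^ 2)) := by
    exact_mod_cast hR.eb
  have h1 : (⟨0, (0 + 3 * r) / (c : ℚ) ^ 2, 0, ((A : ℚ) + 2 * r * 0 + 3 * r ^ 2) / (c : ℚ) ^ 4,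
      ((B : ℚ) + r * A + r ^ 2 * 0 + r ^ 3) / (c : ℚ) ^ 6⟩ : WeierstrassCurve ℚ) =
      ⟨0, (Pf a b : ℚ) / 4, 0, (Tf a b : ℚ) ^ 2 / 16, 0⟩ := by
    have e1 : (0 + 3 * r) / (c : ℚ) ^ 2 = (Pf a b : ℚ) / 4 := by
      rw [hr]; field_simp; ring
    have e2 : ((A : ℚ) + 2 * r * 0 + 3 * r ^ 2) / (c : ℚ) ^ 4 = (Tf a b : ℚ) ^ 2 / 16 := by
      rw [div_eq_iff (pow_ne_zero 4 hs), hr]
      linear_combination (1 / 48) * ea
    have e3 : ((B : ℚ) + r * A + r ^ 2 * 0 + r ^ 3) / (c : ℚ) ^ 6 = 0 := by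
      rw [div_eq_zero_iff]; left
      rw [hr]
      linear_combination (1 / 1728) * eb + ((c : ℚ) ^ 2 * (Pf a b : ℚ) / 12) * (1 / 48) * ea
    rw [e1, e2, e3]
  have h2 := (e.toIntLinearEquiv).finrank_eq
  have h3 : (Sh A B) = (⟨0, 0, 0, (A : ℚ), (B : ℚ)⟩ : WeierstrassCurve ℚ) := rfl
  rw [h3, h2, h1]
  have hT0 : (Tf a b : ℚ) ≠ 0 := by
    have : Tf a b ≠ 0 := pow_ne_zero 2 hR.ab
    exact_mod_cast this
  have hdis : ((Pf a b : ℚ) / 4) ^ 2 - 4 * ((Tf a b : ℚ) ^ 2 / 16) =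
      ((M8 a b : ℤ) : ℚ) * ((N8 a b : ℤ) : ℚ) := by
    unfold Pf Tf M8 N8
    push_cast
    ring
  have hMN : ((M8 a b : ℤ) : ℚ) * ((N8 a b : ℤ) : ℚ) ≠ 0 := by
    have : M8 a b * N8 a b ≠ 0 := by
      unfold M8 N8
      exact mul_ne_zero (neg_ne_zero.mpr (pow_ne_zero 4 hR.a0))
        (mul_ne_zero (pow_ne_zero 2 hR.b0) (sq_ne_two hR.a0))
    exact_mod_cast this
  refine (isog2 ((Pf a b : ℚ) / 4) ((Tf a b : ℚ) ^ 2 / 16) (by positivity) (by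
    rw [hdis]; exact hMN)).trans ?_
  apply le_of_eq
  have h4 : (⟨0, -2 * ((Pf a b : ℚ) / 4), 0, ((Pf a b : ℚ) / 4) ^ 2 - 4 * ((Tf a b : ℚ) ^ 2 / 16),
      0⟩ : WeierstrassCurve ℚ) = EAB (-(M8 a b)) (-(N8 a b)) := by
    rw [hdis]
    unfold EAB Pf M8 N8
    push_cast
    congr 1 <;> ring
  rw [h4]

theorem bnd (P T : ℤ) : (max |P| |T|) ^ 6 ≤ 216 * |3 * T ^ 2 - P ^ 2| ^ 3 ∨
    (max |P| |T|) ^ 6 ≤ 4 * (P * (2 * P ^ 2 - 9 * T ^ 2)) ^ 2 := by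
  set m := max |P| |T| with hm
  have hm0 : 0 ≤ m := le_max_of_le_left (abs_nonneg _)
  by_cases h : m ^ 2 ≤ 6 * |3 * T ^ 2 - P ^ 2|
  · left
    have h1 : (m ^ 2) ^ 3 ≤ (6 * |3 * T ^ 2 - P ^ 2|) ^ 3 := pow_le_pow_left₀ (by positivity) h 3
    calc m ^ 6 = (m ^ 2) ^ 3 := by ring
      _ ≤ _ := h1
      _ = _ := by ring
  · right
    push Not at h
    have hT : T ^ 2 ≤ m ^ 2 := by
      rw [← sq_abs T]
      exact pow_le_pow_left₀ (abs_nonneg _) (le_max_right _ _) 2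
    have hPm : P ^ 2 = m ^ 2 := by
      rcases le_total |T| |P| with h1 | h1
      · rw [hm, max_eq_left h1, sq_abs]
      · exfalso
        have h2 : m = |T| := by rw [hm, max_eq_right h1]
        have h3 : m ^ 2 = T ^ 2 := by rw [h2, sq_abs]
        have h4 : P ^ 2 ≤ T ^ 2 := sq_le_sq.mpr h1
        have h5 := le_abs_self (3 * T ^ 2 - P ^ 2)
        nlinarith [sq_nonneg T]
    have h5 := abs_le.mp (le_refl |3 * T ^ 2 - P ^ 2|)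
    have h6 : m ^ 2 ≤ 2 * |2 * P ^ 2 - 9 * T ^ 2| := by
      have h7 : m ^ 2 ≤ -(2 * (2 * P ^ 2 - 9 * T ^ 2)) := by
        rw [hPm] at h5 h ⊢
        nlinarith [h5.1, h5.2]
      have h8 := neg_abs_le (2 * P ^ 2 - 9 * T ^ 2)
      linarith
    have h9 : (m ^ 2) ^ 2 ≤ (2 * |2 * P ^ 2 - 9 * T ^ 2|) ^ 2 :=
      pow_le_pow_left₀ (by positivity) h6 2
    rw [mul_pow, sq_abs] at h9
    calc m ^ 6 = m ^ 2 * (m ^ 2) ^ 2 := by ring
      _ ≤ m ^ 2 * (2 ^ 2 * (2 * P ^ 2 - 9 * T ^ 2) ^ 2) :=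
        mul_le_mul_of_nonneg_left h9 (by positivity)
      _ = P ^ 2 * (2 ^ 2 * (2 * P ^ 2 - 9 * T ^ 2) ^ 2) := by rw [hPm]
      _ = _ := by ring

theorem bound8 {A B a b c : ℤ} (hR : R8 A B a b c) (H : ℕ) (hH : 4 * |A| ^ 3 ≤ (H : ℤ))
    (hH' : 27 * B ^ 2 ≤ (H : ℤ)) (w : ℤ) (hw : w = a ∨ w = b) :
    w.natAbs ^ 24 ≤ 7 ^ 6 * 23887872 * H := by
  set P := Pf a b with hP
  set T := Tf a b with hT
  set m := max |P| |T| with hm
  have hm0 : 0 ≤ m := le_max_of_le_left (abs_nonneg _)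
  have hc4 : 1 ≤ c ^ 4 := by
    have h1 : 0 < c ^ 4 := by have := hR.c0; positivity
    omega
  have hc6 : 1 ≤ (c ^ 6) ^ 2 := by
    have h1 : 0 < (c ^ 6) ^ 2 := by have := hR.c0; positivity
    omega
  have b1 : |3 * T ^ 2 - P ^ 2| ≤ 48 * |A| := by
    have h1 : |48 * A| = |c ^ 4 * (3 * T ^ 2 - P ^ 2)| := by rw [hR.ea]
    rw [abs_mul, abs_mul, abs_of_nonneg (by positivity : (0 : ℤ) ≤ c ^ 4)] at h1
    have h2 : |(48 : ℤ)| = 48 := by norm_num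
    rw [h2] at h1
    rw [h1]
    exact le_mul_of_one_le_left (abs_nonneg _) hc4
  have b2 : (P * (2 * P ^ 2 - 9 * T ^ 2)) ^ 2 ≤ 1728 ^ 2 * B ^ 2 := by
    have h1 : (1728 * B) ^ 2 = (c ^ 6 * (P * (2 * P ^ 2 - 9 * T ^ 2))) ^ 2 := by rw [hR.eb]
    rw [mul_pow, mul_pow (c ^ 6)] at h1
    rw [h1]
    exact le_mul_of_one_le_left (sq_nonneg _) hc6
  have b3 : m ^ 6 ≤ 23887872 * H := by
    rcases bnd P T with h | h
    · have h1 : |3 * T ^ 2 - P ^ 2| ^ 3 ≤ (48 * |A|) ^ 3 :=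
        pow_le_pow_left₀ (abs_nonneg _) b1 3
      have h2 : (0 : ℤ) ≤ |A| ^ 3 := by positivity
      calc m ^ 6 ≤ 216 * |3 * T ^ 2 - P ^ 2| ^ 3 := h
        _ ≤ 216 * (48 * |A|) ^ 3 := by linarith
        _ = 23887872 * |A| ^ 3 := by ring
        _ ≤ 23887872 * H := by linarith
    · have h2 : (0 : ℤ) ≤ B ^ 2 := by positivity
      calc m ^ 6 ≤ 4 * (P * (2 * P ^ 2 - 9 * T ^ 2)) ^ 2 := h
        _ ≤ 4 * (1728 ^ 2 * B ^ 2) := by linarith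
        _ ≤ 23887872 * H := by linarith
  have b4 : 2 * w ^ 4 ≤ 7 * m := by
    have p1 : 4 * a ^ 4 = P + 2 * T := by rw [hP, hT]; unfold Pf Tf; ring
    have p2 : |P| ≤ m := le_max_left _ _
    have p3 : |T| ≤ m := le_max_right _ _
    have p4 := le_abs_self P
    have p5 := le_abs_self T
    rcases hw with rfl | rfl
    · linarith
    · have p6 : w ^ 4 ≤ 2 * a ^ 4 + 2 * T := by
        rw [hT]; unfold Tf
        nlinarith [sq_nonneg (w ^ 2 - 2 * a ^ 2)]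
      linarith
  have b5 : (w ^ 4) ^ 6 ≤ 7 ^ 6 * m ^ 6 := by
    have h1 : w ^ 4 ≤ 7 * m := by
      have : 0 ≤ w ^ 4 := by positivity
      linarith
    calc (w ^ 4) ^ 6 ≤ (7 * m) ^ 6 := pow_le_pow_left₀ (by positivity) h1 6
      _ = _ := by ring
  zify
  calc |w| ^ 24 = (w ^ 4) ^ 6 := by
        rw [← pow_mul]; exact (by decide : Even 24).pow_abs w
    _ ≤ 7 ^ 6 * m ^ 6 := b5
    _ ≤ 7 ^ 6 * (23887872 * H) := mul_le_mul_of_nonneg_left b3 (by positivity)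
    _ = _ := by ring

theorem inj8 {A B A' B' a b c c' : ℤ} (hR : R8 A B a b c) (hR' : R8 A' B' a b c')
    (hmin : ∀ p : ℕ, p.Prime → ¬ ((p : ℤ) ^ 4 ∣ A ∧ (p : ℤ) ^ 6 ∣ B))
    (hmin' : ∀ p : ℕ, p.Prime → ¬ ((p : ℤ) ^ 4 ∣ A' ∧ (p : ℤ) ^ 6 ∣ B')) : A = A' ∧ B = B' := by
  set g : ℤ := ((Int.gcd c c' : ℕ) : ℤ) with hg
  have hg0 : g ≠ 0 := by
    rw [hg]
    exact_mod_cast (Int.gcd_pos_of_ne_zero_left c' hR.c0).ne'
  obtain ⟨n, hn⟩ : g ∣ c := Int.gcd_dvd_left _ _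
  obtain ⟨d, hd⟩ : g ∣ c' := Int.gcd_dvd_right _ _
  have hcop : IsCoprime d n := by
    apply IsCoprime.symm
    rw [Int.isCoprime_iff_gcd_eq_one]
    have h1 : Int.gcd c c' = g.natAbs * Int.gcd n d := by
      conv_lhs => rw [hn, hd]
      rw [Int.gcd_mul_left]
    have h2 : g.natAbs = Int.gcd c c' := by rw [hg]; simp
    rw [← h2] at h1
    have h3 : g.natAbs ≠ 0 := by omega
    have : g.natAbs * 1 = g.natAbs * Int.gcd n d := by omega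
    exact (Nat.eq_of_mul_eq_mul_left (Nat.pos_of_ne_zero h3) this).symm
  have h3 : A * d ^ 4 = n ^ 4 * A' := by
    have e1 := hR.ea
    have e2 := hR'.ea
    rw [hn] at e1
    rw [hd] at e2
    have : 48 * g ^ 4 * (A * d ^ 4) = 48 * g ^ 4 * (n ^ 4 * A') := by
      linear_combination (g ^ 4 * d ^ 4) * e1 - (g ^ 4 * n ^ 4) * e2
    exact mul_left_cancel₀ (mul_ne_zero (by norm_num) (pow_ne_zero 4 hg0)) this
  have h4 : B * d ^ 6 = n ^ 6 * B' := by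
    have e1 := hR.eb
    have e2 := hR'.eb
    rw [hn] at e1
    rw [hd] at e2
    have : 1728 * g ^ 6 * (B * d ^ 6) = 1728 * g ^ 6 * (n ^ 6 * B') := by
      linear_combination (g ^ 6 * d ^ 6) * e1 - (g ^ 6 * n ^ 6) * e2
    exact mul_left_cancel₀ (mul_ne_zero (by norm_num) (pow_ne_zero 6 hg0)) this
  have h5 : d.natAbs = 1 :=
    minim hmin' _ _ hcop ⟨A, by rw [← h3]; ring⟩ ⟨B, by rw [← h4]; ring⟩
  have h6 : n.natAbs = 1 :=
    minim hmin _ _ hcop.symm ⟨A', by rw [mul_comm, h3]⟩ ⟨B', by rw [mul_comm, h4]⟩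
  have h7 : d = 1 ∨ d = -1 := by omega
  have h8 : n = 1 ∨ n = -1 := by omega
  rcases h7 with h7 | h7 <;> rcases h8 with h8 | h8 <;> rw [h7, h8] at h3 h4 <;> constructor <;>
    linarith

open Classical in
/-- the parameters of a curve -/
noncomputable def FF8 (c : ℤ × ℤ) : ℤ × ℤ :=
  if h : ∃ (w : ℤ × ℤ) (s : ℤ), R8 c.1 c.2 w.1 w.2 s then h.choose else (0, 0)

theorem memCc {m : ℕ} {c : ℤ × ℤ} {H : ℕ} (hc : c ∈ Cc m H) :
    4 * c.1 ^ 3 + 27 * c.2 ^ 2 ≠ 0 ∧ 4 * |c.1| ^ 3 ≤ H ∧ 27 * c.2 ^ 2 ≤ H ∧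
    (∀ p : ℕ, p.Prime → ¬ ((p : ℤ) ^ 4 ∣ c.1 ∧ (p : ℤ) ^ 6 ∣ c.2)) ∧ HasP m (Sh c.1 c.2) := by
  classical
  exact (Finset.mem_filter.mp hc).2

theorem FF8_spec {c : ℤ × ℤ} {H : ℕ} (hc : c ∈ Cc 8 H) :
    ∃ s : ℤ, R8 c.1 c.2 (FF8 c).1 (FF8 c).2 s := by
  obtain ⟨hD, _, _, _, hT⟩ := memCc hc
  have h : ∃ (w : ℤ × ℤ) (s : ℤ), R8 c.1 c.2 w.1 w.2 s := by
    obtain ⟨u, v, s, hR⟩ := exR8 hD hT
    exact ⟨(u, v), s, hR⟩
  unfold FF8
  rw [dif_pos h]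
  exact h.choose_spec

theorem par8c_of (h : ISO) : PAR8c := by
  refine ⟨7 ^ 6 * 23887872, FF8, fun H => ⟨?_, ?_⟩⟩
  · intro c hc c' hc' hcc
    obtain ⟨s, hR⟩ := FF8_spec hc
    obtain ⟨s', hR'⟩ := FF8_spec hc'
    rw [← hcc] at hR'
    have hc1 := memCc (Finset.mem_coe.mp hc)
    have hc1' := memCc (Finset.mem_coe.mp hc')
    obtain ⟨h1, h2⟩ := inj8 hR hR' hc1.2.2.2.1 hc1'.2.2.2.1
    exact Prod.ext h1 h2
  · intro c hc
    obtain ⟨s, hR⟩ := FF8_spec hc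
    have hc1 := memCc hc
    refine ⟨hR.cop, ?_, ?_, ?_, bound8 hR H hc1.2.1 hc1.2.2.1 _ (Or.inl rfl),
      bound8 hR H hc1.2.1 hc1.2.2.1 _ (Or.inr rfl), fin_le h hR⟩
    · unfold M8
      exact neg_ne_zero.mpr (pow_ne_zero 4 hR.a0)
    · unfold N8
      exact mul_ne_zero (pow_ne_zero 2 hR.b0) (sq_ne_two hR.a0)
    · unfold M8 N8
      intro h
      apply pow_ne_zero 2 hR.ab
      linear_combination -h

end Pool.Agent.L0h98.T8
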