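import Pool.Agent.L0h5.T8.Stm
import Pool.Agent.V11306.CMb

/-!
# The two-isogeny and the rank
-/

set_option autoImplicit false

namespace Pool.Agent.L0h98.T8

open WeierstrassCurve WeierstrassCurve.Affine Pool.Agent.V11306.CM

/-- a homomorphism with torsion kernel -/
theorem rank_le_of {G G' : Type} [AddCommGroup G] [AddCommGroup G'] (f : G →+ G')
    (hf : ∀ x, f x = 0 → ∃ n : ℤ, n ≠ 0 ∧ n • x = 0) : Module.rank ℤ G ≤ Module.rank ℤ G' := by
  set g : G →ₗ[ℤ] G' := f.toIntLinearMap with hg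
  have h0 : Module.rank ℤ (LinearMap.ker g) = 0 := by
    rw [rank_eq_zero_iff]
    rintro ⟨x, hx⟩
    obtain ⟨n, hn, hnx⟩ := hf x (LinearMap.mem_ker.mp hx)
    exact ⟨n, hn, Subtype.ext (by simpa using hnx)⟩
  have h1 := LinearMap.rank_range_add_rank_ker g
  rw [h0, add_zero] at h1
  rw [← h1]
  exact Submodule.rank_le _

theorem rank_le_phi {a b a' b' : ℚ} (ha : a' = -2 * a) (hb : b' = a ^ 2 - 4 * b) (hb0 : b ≠ 0)
    (hb0' : b' ≠ 0) : Module.rank ℤ (E a b).Point ≤ Module.rank ℤ (E a' b').Point := by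
  have hΔ' : (E a' b').Δ ≠ 0 := by
    rw [E_delta]
    have : a' ^ 2 - 4 * b' = 16 * b := by rw [ha, hb]; ring
    rw [this]
    positivity
  apply rank_le_of (phiHom ha hb hΔ' hb0)
  intro P hP
  rcases P with _ | ⟨x, y, h⟩
  · exact ⟨1, one_ne_zero, by simp; rfl⟩
  · by_cases hx : x = 0
    · have hy : y = 0 := by
        have := (E_eq a b x y).mp h.1
        rw [hx] at this
        have h2 : y ^ 2 = 0 := by rw [this]; ring
        exact pow_eq_zero_iff (two_ne_zero) |>.mp h2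
      refine ⟨2, two_ne_zero, ?_⟩
      rw [two_zsmul]
      apply Point.add_self_of_Y_eq
      rw [E_negY, hy, neg_zero]
    · exfalso
      have h1 : phi a b a' b' ha hb hΔ' (.some x y h) = 0 := hP
      rw [phi_of_ne ha hb hΔ' _ hx] at h1
      exact Point.some_ne_zero _ h1

theorem rank_eq_phi {a b a' b' : ℚ} (ha : a' = -2 * a) (hb : b' = a ^ 2 - 4 * b) (hb0 : b ≠ 0)
    (hb0' : b' ≠ 0) : Module.rank ℤ (E a b).Point = Module.rank ℤ (E a' b').Point := by
  apply le_antisymm (rank_le_phi ha hb hb0 hb0')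
  have e1 : -2 * a' = 4 * a := by rw [ha]; ring
  have e2 : a' ^ 2 - 4 * b' = 16 * b := by rw [ha, hb]; ring
  have h1 : Module.rank ℤ (E a' b').Point ≤ Module.rank ℤ (E (4 * a) (16 * b)).Point :=
    rank_le_phi e1.symm e2.symm hb0' (by positivity)
  refine h1.trans ?_
  have hΔ : (E a b).Δ ≠ 0 := by
    rw [E_delta, ← hb]
    positivity
  set g : (E (4 * a) (16 * b)).Point →+ (E a b).Point :=
    affHom (α := 1 / 4) (β := 0) (γ := 1 / 8) (by norm_num) (by ring) (by ring) (by ring) hΔ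
      (by norm_num) with hg
  apply rank_le_of g
  intro P hP
  rcases P with _ | ⟨x, y, h⟩
  · exact ⟨1, one_ne_zero, by simp; rfl⟩
  · exfalso
    have h1 : aff (4 * a) (16 * b) a b (1 / 4) 0 (1 / 8) (by norm_num) (by ring) (by ring) (by ring)
      hΔ (.some x y h) = 0 := hP
    simp only [aff] at h1
    exact Point.some_ne_zero _ h1

theorem isog2 : Pool.Agent.L0h5.T8.ISOG2 := by
  intro a b hb hb'
  have h := rank_eq_phi (a := a) (b := b) rfl rfl hb hb'
  apply le_of_eq
  unfold Module.finrank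
  have e : ∀ c d : ℚ, Module.rank ℤ (E c d).Point =
      Module.rank ℤ (⟨0, c, 0, d, 0⟩ : WeierstrassCurve ℚ).toAffine.Point := by
    intro c d
    rfl
  rw [← e, ← e, h]

end Pool.Agent.L0h98.T8
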