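import Pool.Agent.L0h98.T8.Low8a
import Pool.Agent.W376.RTL.Low6
import Pool.Agent.W261.RT.Iso

/-!
# Many curves with a point of order eight
-/

set_option autoImplicit false

namespace Pool.Agent.L0h98.T8

open Pool.Agent.W307.RT Pool.Agent.W262.RK Finset Pool.Agent.L0h5.T8

/-- the good pairs -/
def GG8 (K : ℕ) : Finset (ℕ × ℕ) :=
  (Ioc 0 (180 * K) ×ˢ Ioc 0 K).filter (fun t => t.1.Coprime (6 * t.2) ∧ 12 * t.2 < t.1)

/-- pairs of multiples -/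
def BB8 (K d : ℕ) : Finset (ℕ × ℕ) :=
  (Ioc 0 (180 * K)).filter (fun x => d ∣ x) ×ˢ (Ioc 0 K).filter (fun x => d ∣ x)

lemma card_BB8 (K d : ℕ) (hd : 0 < d) :
    ((BB8 K d).card : ℝ) ≤ 180 * (K : ℝ) ^ 2 * (1 / (d : ℝ) ^ 2) := by
  unfold BB8
  rw [card_product, Nat.Ioc_filter_dvd_card_eq_div, Nat.Ioc_filter_dvd_card_eq_div]
  push_cast
  have hd' : (0 : ℝ) < d := by exact_mod_cast hd
  have h1 : ((180 * K / d : ℕ) : ℝ) ≤ 180 * K / d := by
    have := Nat.cast_div_le (α := ℝ) (m := 180 * K) (n := d)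
    push_cast at this
    exact this
  have h2 : ((K / d : ℕ) : ℝ) ≤ K / d := Nat.cast_div_le
  calc ((180 * K / d : ℕ) : ℝ) * ((K / d : ℕ) : ℝ) ≤ (180 * K / d) * (K / d) := by gcongr
    _ = _ := by field_simp

/-- the multiples of two or three -/
lemma card_U (K : ℕ) :
    (((Ioc 0 (180 * K)).filter (fun x => 2 ∣ x)) ∪ ((Ioc 0 (180 * K)).filter (fun x => 3 ∣ x))).card =
      120 * K := by
  have h := card_union_add_card_inter ((Ioc 0 (180 * K)).filter (fun x => 2 ∣ x))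
    ((Ioc 0 (180 * K)).filter (fun x => 3 ∣ x))
  have h1 : ((Ioc 0 (180 * K)).filter (fun x => 2 ∣ x)) ∩ ((Ioc 0 (180 * K)).filter (fun x => 3 ∣ x)) =
      (Ioc 0 (180 * K)).filter (fun x => 6 ∣ x) := by
    ext x
    simp only [mem_inter, mem_filter]
    constructor
    · rintro ⟨⟨h1, h2⟩, -, h3⟩
      exact ⟨h1, by omega⟩
    · rintro ⟨h1, h2⟩
      exact ⟨⟨h1, by omega⟩, h1, by omega⟩
  rw [h1, Nat.Ioc_filter_dvd_card_eq_div, Nat.Ioc_filter_dvd_card_eq_div,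
    Nat.Ioc_filter_dvd_card_eq_div] at h
  have e1 : 180 * K / 2 = 90 * K := by omega
  have e2 : 180 * K / 3 = 60 * K := by omega
  have e3 : 180 * K / 6 = 30 * K := by omega
  rw [e1, e2, e3] at h
  omega

lemma cover8 (K : ℕ) : Ioc 0 (180 * K) ×ˢ Ioc 0 K ⊆
    GG8 K ∪ ((Ioc 0 (12 * K) ×ˢ Ioc 0 K) ∪
      (((((Ioc 0 (180 * K)).filter (fun x => 2 ∣ x)) ∪
        ((Ioc 0 (180 * K)).filter (fun x => 3 ∣ x))) ×ˢ Ioc 0 K) ∪
      ((Icc 5 K).biUnion (fun d => BB8 K d)))) := by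
  rintro ⟨u, w⟩ h
  rw [mem_product, mem_Ioc, mem_Ioc] at h
  obtain ⟨⟨hu0, hu1⟩, hw0, hw1⟩ := h
  simp only at hu0 hu1 hw0 hw1
  by_contra hcon
  simp only [mem_union, not_or, GG8, BB8, mem_filter, mem_product, mem_Ioc, mem_biUnion, mem_Icc,
    not_exists, not_and] at hcon
  obtain ⟨h1, h2, h3, h5⟩ := hcon
  have h2' : 12 * w < u := by
    by_contra hc
    push Not at hc
    exact h2 ⟨hu0, by omega⟩ hw0 hw1
  have h3' : ¬ 3 ∣ u := by
    intro hd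
    exact h3 (Or.inr ⟨⟨hu0, hu1⟩, hd⟩) hw0 hw1
  have h4' : ¬ 2 ∣ u := by
    intro hd
    exact h3 (Or.inl ⟨⟨hu0, hu1⟩, hd⟩) hw0 hw1
  apply h1 ⟨⟨hu0, hu1⟩, hw0, hw1⟩ _ h2'
  apply Nat.Coprime.mul_right
  · rw [show (6 : ℕ) = 2 * 3 by norm_num]
    apply Nat.Coprime.mul_right
    · rw [Nat.coprime_comm, Nat.Prime.coprime_iff_not_dvd Nat.prime_two]
      exact h4'
    · rw [Nat.coprime_comm, Nat.Prime.coprime_iff_not_dvd Nat.prime_three]
      exact h3'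
  · by_contra hnc
    obtain ⟨p, hp, hpu, hpw⟩ := Nat.Prime.not_coprime_iff_dvd.1 hnc
    have hp2 : p ≠ 2 := by
      rintro rfl
      exact h4' hpu
    have hp3 : p ≠ 3 := by
      rintro rfl
      exact h3' hpu
    have hp4 : p ≠ 4 := by
      rintro rfl
      revert hp
      norm_num
    have hp5 : 5 ≤ p := by
      have := hp.two_le
      omega
    have hpK : p ≤ K := (Nat.le_of_dvd hw0 hpw).trans hw1
    exact h5 p ⟨hp5, hpK⟩ ⟨⟨hu0, hu1⟩, hpu⟩ ⟨hw0, hw1⟩ hpw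

lemma card_GG8 (K : ℕ) : (3 : ℝ) * (K : ℝ) ^ 2 ≤ ((GG8 K).card : ℝ) := by
  have h := card_le_card (cover8 K)
  have h1 : (Ioc 0 (180 * K) ×ˢ Ioc 0 K).card = 180 * K * K := by simp
  have h2 : (Ioc 0 (12 * K) ×ˢ Ioc 0 K).card = 12 * K * K := by simp
  have h3 : ((((Ioc 0 (180 * K)).filter (fun x => 2 ∣ x)) ∪
        ((Ioc 0 (180 * K)).filter (fun x => 3 ∣ x))) ×ˢ Ioc 0 K).card = 120 * K * K := by
    rw [card_product, card_U]
    simp
  have h4 : 180 * K * K ≤ (GG8 K).card + (12 * K * K + (120 * K * K +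
      ∑ d ∈ Icc 5 K, (BB8 K d).card)) := by
    rw [← h1, ← h2, ← h3]
    refine h.trans ?_
    refine (card_union_le _ _).trans ?_
    refine Nat.add_le_add_left ?_ _
    refine (card_union_le _ _).trans ?_
    refine Nat.add_le_add_left ?_ _
    refine (card_union_le _ _).trans ?_
    refine Nat.add_le_add_left ?_ _
    exact card_biUnion_le
  have h4' : (180 : ℝ) * K * K ≤ ((GG8 K).card : ℝ) + (12 * K * K + (120 * K * K +
      ∑ d ∈ Icc 5 K, ((BB8 K d).card : ℝ))) := by exact_mod_cast h4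
  have h6 : ∑ d ∈ Icc 5 K, ((BB8 K d).card : ℝ) ≤ 180 * (K : ℝ) ^ 2 * (1 / 4) := by
    calc ∑ d ∈ Icc 5 K, ((BB8 K d).card : ℝ) ≤
        ∑ d ∈ Icc 5 K, 180 * (K : ℝ) ^ 2 * (1 / (d : ℝ) ^ 2) := by
          apply sum_le_sum
          intro d hd
          rw [mem_Icc] at hd
          exact card_BB8 K d (by omega)
      _ = 180 * (K : ℝ) ^ 2 * ∑ d ∈ Icc 5 K, (1 / (d : ℝ) ^ 2) := by rw [mul_sum]
      _ ≤ _ := by
          apply mul_le_mul_of_nonneg_left (Pool.Agent.W376.RTL.sum_sq_inv' K) (by positivity)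
  nlinarith

/-- LOW8c -/
theorem low8c : LOW8c := by
  refine ⟨1 / 43200, 5000000000, 180, by norm_num, fun T H hT hH => ?_⟩
  set K := T / 180 with hK
  have hKT : 180 * K ≤ T := Nat.mul_div_le T 180
  have hKT' : (T : ℝ) ≤ 360 * K := by
    have h1 : T < 180 * (K + 1) := Nat.lt_mul_div_succ T (by norm_num)
    have h2 : T ≤ 360 * K := by omega
    exact_mod_cast h2
  have hG := card_GG8 K
  have hcard : (GG8 K).card ≤ (Cc 8 H).card := by
    classical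
    apply card_le_card_of_injOn
      (fun t : ℕ × ℕ => (A8 ((6 * t.2 : ℕ) : ℤ) (t.1 : ℤ), B8 ((6 * t.2 : ℕ) : ℤ) (t.1 : ℤ)))
    · intro t ht
      rw [GG8, coe_filter, Set.mem_ofPred_eq, mem_product, mem_Ioc, mem_Ioc] at ht
      obtain ⟨⟨⟨hu0, hu1⟩, hw0, hw1⟩, hc, hlt⟩ := ht
      have hv0 : (0 : ℤ) < ((6 * t.2 : ℕ) : ℤ) := by exact_mod_cast (by omega : 0 < 6 * t.2)
      have huv : 2 * ((6 * t.2 : ℕ) : ℤ) < (t.1 : ℤ) := by
        exact_mod_cast (by omega : 2 * (6 * t.2) < t.1)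
      have huT : (t.1 : ℤ) ≤ (T : ℤ) := by exact_mod_cast hu1.trans hKT
      have hcz : IsCoprime ((6 * t.2 : ℕ) : ℤ) (t.1 : ℤ) :=
        (Nat.isCoprime_iff_coprime.2 hc).symm
      have h6 : (6 : ℤ) ∣ ((6 * t.2 : ℕ) : ℤ) := by
        push_cast
        exact Dvd.intro _ rfl
      obtain ⟨g1, g2⟩ := height8 hv0 huv huT
      have hH' : (5000000000 : ℤ) * (T : ℤ) ^ 24 ≤ (H : ℤ) := by exact_mod_cast hH
      have g1' := g1.trans hH'
      have g2' := g2.trans hH'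
      have b1 : |A8 ((6 * t.2 : ℕ) : ℤ) (t.1 : ℤ)| ≤ (H : ℤ) := by
        have h0 := abs_nonneg (A8 ((6 * t.2 : ℕ) : ℤ) (t.1 : ℤ))
        refine le_trans ?_ g1'
        generalize |A8 ((6 * t.2 : ℕ) : ℤ) (t.1 : ℤ)| = a at *
        rcases h0.eq_or_lt with h | h
        · rw [← h]; norm_num
        · have h1 : 1 ≤ a := h
          have h2 : 1 ≤ a ^ 2 := one_le_pow₀ h1
          nlinarith
      have b2 : |B8 ((6 * t.2 : ℕ) : ℤ) (t.1 : ℤ)| ≤ (H : ℤ) := by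
        refine le_trans ?_ g2'
        rw [← sq_abs]
        have h0 := abs_nonneg (B8 ((6 * t.2 : ℕ) : ℤ) (t.1 : ℤ))
        generalize |B8 ((6 * t.2 : ℕ) : ℤ) (t.1 : ℤ)| = a at *
        rcases h0.eq_or_lt with h | h
        · rw [← h]; norm_num
        · have h1 : 1 ≤ a := h
          nlinarith
      rw [abs_le] at b1 b2
      rw [Cc, coe_filter, Set.mem_ofPred_eq, mem_product, mem_Icc, mem_Icc]
      exact ⟨⟨b1, b2⟩, disc8_ne hv0 huv, g1', g2', min8 hcz h6, hasP8 hv0 huv⟩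
    · intro t ht t' ht' h
      rw [GG8, coe_filter, Set.mem_ofPred_eq, mem_product, mem_Ioc, mem_Ioc] at ht ht'
      obtain ⟨⟨⟨hu0, hu1⟩, hw0, hw1⟩, hc, hlt⟩ := ht
      obtain ⟨⟨⟨hu0', hu1'⟩, hw0', hw1'⟩, hc', hlt'⟩ := ht'
      have hv0 : (0 : ℤ) < ((6 * t.2 : ℕ) : ℤ) := by exact_mod_cast (by omega : 0 < 6 * t.2)
      have huv : 2 * ((6 * t.2 : ℕ) : ℤ) < (t.1 : ℤ) := by
        exact_mod_cast (by omega : 2 * (6 * t.2) < t.1)
      have hv0' : (0 : ℤ) < ((6 * t'.2 : ℕ) : ℤ) := by exact_mod_cast (by omega : 0 < 6 * t'.2)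
      have huv' : 2 * ((6 * t'.2 : ℕ) : ℤ) < (t'.1 : ℤ) := by
        exact_mod_cast (by omega : 2 * (6 * t'.2) < t'.1)
      simp only [Prod.mk.injEq] at h
      obtain ⟨e1, e2⟩ := inj_ab hv0 huv hv0' huv' h.1 h.2
      apply Prod.ext
      · exact_mod_cast e2
      · have e3 : 6 * t.2 = 6 * t'.2 := by exact_mod_cast e1
        omega
  have hcard' : ((GG8 K).card : ℝ) ≤ ((Cc 8 H).card : ℝ) := by exact_mod_cast hcard
  have hT0 : (0 : ℝ) ≤ T := Nat.cast_nonneg _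
  have : (T : ℝ) ^ 2 ≤ (360 * K) ^ 2 := by gcongr
  nlinarith

/-- PAR8c -/
theorem par8c : PAR8c := par8c_of Pool.Agent.W261.RT.iso

end Pool.Agent.L0h98.T8
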