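import Pool.Agent.W135.RT.Par6
import Pool.Agent.L0h98.T8.Isog

/-!
# Points of order eight
-/

set_option autoImplicit false

namespace Pool.Agent.L0h98.T8

open Pool.Agent.W307.RT Pool.Agent.W262.RK WeierstrassCurve.Affine Pool.Agent.W135.RT
  Pool.Agent.L0h5.T8

/-- the double of a point -/
theorem dbl {A B : ℤ} {x y : ℚ} (h : (Sh A B).toAffine.Nonsingular x y) (hy : y ≠ 0) :
    ∃ (m x' y' : ℚ) (h' : (Sh A B).toAffine.Nonsingular x' y'),
      Point.some x y h + Point.some x y h = Point.some x' y' h' ∧ 2 * m * y = 3 * x ^ 2 + A ∧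
      x' = m ^ 2 - 2 * x ∧ y' = -(m * (x' - x) + y) := by
  have a1 : (Sh A B).toAffine.a₁ = 0 := rfl
  have a2 : (Sh A B).toAffine.a₂ = 0 := rfl
  have a3 : (Sh A B).toAffine.a₃ = 0 := rfl
  have hn : (Sh A B).toAffine.negY x y = -y := by
    unfold negY Sh; simp
  have h3 : y ≠ (Sh A B).toAffine.negY x y := by
    rw [hn]
    intro hcon
    apply hy
    linarith
  have hs := slope_of_Y_ne (W := (Sh A B).toAffine) (x₁ := x) (x₂ := x) (y₁ := y) (y₂ := y) rfl h3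
  set m := (Sh A B).toAffine.slope x x y y with hm
  rw [hn] at hs
  have hm' : 2 * m * y = 3 * x ^ 2 + A := by
    rw [hs]
    unfold Sh
    simp only
    have : y - -y ≠ 0 := by intro hcon; apply hy; linarith
    field_simp
    ring
  refine ⟨m, _, _, _, Point.add_self_of_Y_ne h3, hm', ?_, ?_⟩
  · rw [← hm]
    unfold addX
    rw [a1, a2]
    ring
  · rw [← hm]
    unfold addY negAddY negY addX
    rw [a1, a2, a3]
    ring

theorem eqn {A B : ℤ} {x y : ℚ} (h : (Sh A B).toAffine.Nonsingular x y) :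
    y ^ 2 = x ^ 3 + A * x + B := by
  have h6 := h.1
  rw [equation_iff] at h6
  unfold Sh at h6
  simp only at h6
  linarith

/-- not a point of order two -/
theorem yne {A B : ℤ} {x y : ℚ} (h : (Sh A B).toAffine.Nonsingular x y)
    (h2 : Point.some x y h + Point.some x y h ≠ 0) : y ≠ 0 := by
  intro hy
  apply h2
  apply Point.add_self_of_Y_eq
  unfold negY Sh
  simp only [hy]
  ring

/-- the algebra of the points of order eight -/
theorem alg8 {A B : ℤ} (hT : HasP 8 (Sh A B)) :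
    ∃ e s t u m : ℚ, t ≠ 0 ∧ s ≠ 0 ∧ e ^ 3 + A * e + B = 0 ∧ t ^ 2 = 3 * e ^ 2 + A ∧
      s ^ 2 = 3 * e + 2 * t ∧ u ^ 2 = t ∧ (m - u) ^ 2 = s * (s + 2 * u) := by
  obtain ⟨P, hP⟩ := hT
  have h2 : addOrderOf (2 • P) = 4 := by
    rw [addOrderOf_nsmul' P (by norm_num), hP]; norm_num
  have h4 : addOrderOf (4 • P) = 2 := by
    rw [addOrderOf_nsmul' P (by norm_num), hP]; norm_num
  obtain ⟨e, he, hPe, hroot⟩ := ord2 _ h4
  have e24 : (2 • P) + (2 • P) = 4 • P := by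
    rw [← add_nsmul]
  have e12 : P + P = 2 • P := (two_nsmul P).symm
  have n2 : 2 • P ≠ 0 := by
    intro h; rw [h, addOrderOf_zero] at h2; omega
  have n4 : 4 • P ≠ 0 := by
    intro h; rw [h, addOrderOf_zero] at h4; omega
  rcases P with _ | ⟨x₁, y₁, n1⟩
  · exfalso
    apply n2
    exact nsmul_zero 2
  have hy1 : y₁ ≠ 0 := yne n1 (by rw [e12]; exact n2)
  obtain ⟨m, x₂, y₂, n₂, ha1, hm1, hx2, hy2⟩ := dbl n1 hy1
  rw [e12] at ha1
  rw [ha1] at e24 n2
  have hy2' : y₂ ≠ 0 := yne n₂ (by rw [e24]; exact n4)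
  obtain ⟨s, x₄, y₄, n₄, ha2, hm2, hx4, hy4⟩ := dbl n₂ hy2'
  rw [e24, hPe] at ha2
  rw [Point.some.injEq] at ha2
  obtain ⟨q1, q2⟩ := ha2
  rw [← q1] at hx4 hy4
  rw [← q2] at hy4
  have g1 := eqn n1
  have g2 := eqn n₂
  -- `y₂ = s (x₂ - e)`
  have k1 : y₂ = s * (x₂ - e) := by linarith
  have ht0 : x₂ - e ≠ 0 := by
    intro h
    apply hy2'
    rw [k1, h, mul_zero]
  have hs0 : s ≠ 0 := by
    intro h
    apply hy2'
    rw [k1, h, zero_mul]
  have k2 : s ^ 2 = e + 2 * x₂ := by linarith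
  have k3 : (x₂ - e) ^ 2 = 3 * e ^ 2 + A := by
    rw [k1] at hm2
    linear_combination hm2 - 2 * (x₂ - e) * k2
  have k4 : s ^ 2 = 3 * e + 2 * (x₂ - e) := by linarith
  -- `(x₁ - e) ^ 2 = t (m + s) ^ 2`
  have hA : (A : ℚ) = (x₂ - e) ^ 2 - 3 * e ^ 2 := by linarith
  have hB : (B : ℚ) = -(e ^ 3 + A * e) := by linarith
  have hY : y₁ = -(s * (x₂ - e)) - m * (x₂ - x₁) := by
    rw [k1] at hy2; linarith
  have k5 : (x₂ - e) * (m + s) ^ 2 = (x₁ - e) ^ 2 := by
    apply mul_left_cancel₀ ht0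
    have z1 : (y₁ - m * (x₁ - e)) ^ 2 = (x₂ - e) * (x₁ - e) ^ 2 := by
      rw [hB, hA] at g1
      rw [hA] at hm1
      linear_combination g1 - (x₁ - e) * hm1 - (x₁ - e) ^ 2 * hx2
    have z2 : y₁ - m * (x₁ - e) = -((x₂ - e) * (m + s)) := by
      rw [hY]; ring
    rw [z2] at z1
    linear_combination z1
  have hms : m + s ≠ 0 := by
    intro h
    rw [h] at k5
    have : (x₁ - e) ^ 2 = 0 := by rw [← k5]; ring
    have h1 : x₁ = e := by
      have := pow_eq_zero_iff (two_ne_zero) |>.mp this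
      linarith
    apply hy1
    have h2 : y₁ ^ 2 = 0 := by rw [g1, h1]; exact hroot
    exact pow_eq_zero_iff (two_ne_zero) |>.mp h2
  set u : ℚ := (x₁ - e) / (m + s) with hu
  have hu1 : x₁ - e = u * (m + s) := by rw [hu]; field_simp
  have hu2 : u ^ 2 = x₂ - e := by
    rw [hu1] at k5
    have hms2 : (m + s) ^ 2 ≠ 0 := pow_ne_zero 2 hms
    apply mul_right_cancel₀ hms2
    linear_combination -k5
  refine ⟨e, s, x₂ - e, u, m, ht0, hs0, hroot, k3, k4, hu2, ?_⟩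
  linear_combination 2 * hu1 - k4 + hu2 - hx2

end Pool.Agent.L0h98.T8
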